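import Mathlib
import Pool.Agent.H789R2.FR.Core5
set_option autoImplicit false

/-!
# Stein's restriction conjecture in `ℝ^3` for densities that are regular only in longitude

For a bounded density `g` on the unit sphere of `ℝ^3` with `s > 1/5` derivatives in longitude
(in an averaged `L^2` sense, in every strip of latitudes) and NO regularity in latitude, the
Fourier transform of `g dσ` lies in `L^p(ℝ^3)` for every `p > 3`.
-/

namespace Pool.Agent.Results.MP_6cbfb8_an.LongitudeRegularity

open MeasureTheory Measure Set Metric Complex Filter Topology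
open Pool.Agent.H789R2.FR
open scoped ENNReal Pointwise RealInnerProductSpace

/-- The rotation of the unit sphere of `ℝ^3` by the angle `h` about the third axis. -/
noncomputable def rotate (h : ℝ) (x : sphere (0 : EuclideanSpace ℝ (Fin 3)) 1) :
    sphere (0 : EuclideanSpace ℝ (Fin 3)) 1 :=
  ⟨!₂[x.1 0 * Real.cos h - x.1 1 * Real.sin h, x.1 0 * Real.sin h + x.1 1 * Real.cos h, x.1 2],
    by
      have hx : ‖x.1‖ = 1 := by simp
      rw [mem_sphere_zero_iff_norm]
      rw [EuclideanSpace.norm_eq, Fin.sum_univ_three] at hx ⊢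
      refine Eq.trans ?_ hx
      congr 1
      simp only [Real.norm_eq_abs, sq_abs]
      simp
      nlinarith [Real.sin_sq_add_cos_sq h]⟩

lemma rotate_coe (h : ℝ) (x : sphere (0 : E 3) 1) : ((rotate h x : sphere (0 : E 3) 1) : E 3) =
    rot h (x : E 3) := rfl

/-- `rot h` as a linear isometry equivalence -/
noncomputable def rotL (h : ℝ) : E 3 ≃ₗᵢ[ℝ] E 3 where
  toFun := rot h
  invFun := rot (-h)
  map_add' x y := by
    ext i
    fin_cases i <;> simp [rot] <;> ring
  map_smul' c x := by
    ext i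
    fin_cases i <;> simp [rot] <;> ring
  left_inv x := by
    have hs := Real.sin_sq_add_cos_sq h
    ext i
    fin_cases i
    · simp [rot]
      linear_combination (x 0) * hs
    · simp [rot]
      linear_combination (x 1) * hs
    · simp [rot]
  right_inv x := by
    have hs := Real.sin_sq_add_cos_sq h
    ext i
    fin_cases i
    · simp [rot]
      linear_combination (x 0) * hs
    · simp [rot]
      linear_combination (x 1) * hs
    · simp [rot]
  norm_map' x := by
    simp only [LinearEquiv.coe_mk, LinearMap.coe_mk, AddHom.coe_mk]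
    rw [EuclideanSpace.norm_eq, EuclideanSpace.norm_eq, Fin.sum_univ_three, Fin.sum_univ_three]
    congr 1
    simp only [Real.norm_eq_abs, sq_abs, rot]
    simp
    nlinarith [Real.sin_sq_add_cos_sq h]

lemma rotL_apply (h : ℝ) (x : E 3) : rotL h x = rot h x := rfl

lemma rotate_meas (h : ℝ) : Measurable (rotate h) := by
  refine Measurable.subtype_mk ?_
  exact (rotL h).continuous.measurable.comp measurable_subtype_coe

lemma rotate_mp (h : ℝ) : MeasurePreserving (rotate h)
    ((volume : Measure (E 3)).toSphere) ((volume : Measure (E 3)).toSphere) := by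
  refine ⟨rotate_meas h, ?_⟩
  ext N hN
  rw [map_apply (rotate_meas h) hN]
  have hemb : MeasurableEmbedding (Subtype.val : sphere (0 : E 3) 1 → E 3) :=
    MeasurableEmbedding.subtype_coe isClosed_sphere.measurableSet
  have hN' : MeasurableSet (Subtype.val '' N : Set (E 3)) := hemb.measurableSet_image' hN
  have h1 : (volume : Measure (E 3)).toSphere N = sg 3 (Subtype.val '' N) := by
    rw [sg_apply hN', preimage_image_eq _ Subtype.val_injective]
  have h2 := (sg_inv (rotL h)).measure_preimage hN'.nullMeasurableSet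
  rw [h1, ← h2, sg_apply ((rotL h).continuous.measurable hN')]
  congr 1
  ext x
  simp only [mem_preimage]
  rw [rotL_apply, ← rotate_coe]
  constructor
  · intro hx
    exact ⟨_, hx, rfl⟩
  · rintro ⟨y, hy, hxy⟩
    rwa [← Subtype.val_injective hxy]

lemma integral_sg {n : ℕ} (f : E n → ℂ) (hf : AEStronglyMeasurable f (sg n)) :
    ∫ x, f x ∂(sg n) = ∫ x : sphere (0 : E n) 1, f (x : E n)
      ∂((volume : Measure (E n)).toSphere) := by
  rw [sg] at hf ⊢
  rw [integral_map measurable_subtype_coe.aemeasurable hf]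

/-- a bounded measurable extension of a bounded density to the whole space -/
lemma exists_ext {n : ℕ} (g : sphere (0 : E n) 1 → ℂ)
    (hg : MemLp g ∞ (volume : Measure (E n)).toSphere) :
    ∃ (G : E n → ℂ) (M : ℝ), Measurable G ∧ (∀ x, ‖G x‖ ≤ M) ∧
      ∀ᵐ x : sphere (0 : E n) 1 ∂((volume : Measure (E n)).toSphere), G (x : E n) = g x := by
  obtain ⟨g0, hg0, hgg⟩ := hg.1
  have h1 : eLpNormEssSup g (volume : Measure (E n)).toSphere ≠ ⊤ := by
    have := hg.2.ne
    rwa [eLpNorm_exponent_top] at this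
  set M : ℝ := (eLpNormEssSup g (volume : Measure (E n)).toSphere).toReal with hMdef
  have hM : ∀ᵐ x ∂((volume : Measure (E n)).toSphere), ‖g x‖ ≤ M := by
    filter_upwards [enorm_ae_le_eLpNormEssSup g (volume : Measure (E n)).toSphere] with x hx
    rw [hMdef, ← toReal_enorm]
    exact ENNReal.toReal_mono h1 hx
  have hM0 : 0 ≤ M := ENNReal.toReal_nonneg
  set g1 : sphere (0 : E n) 1 → ℂ := {x | ‖g0 x‖ ≤ M}.indicator g0 with hg1
  have hg1m : Measurable g1 :=
    hg0.measurable.indicator (measurableSet_le hg0.measurable.norm measurable_const)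
  have hg1b : ∀ x, ‖g1 x‖ ≤ M := by
    intro x
    by_cases h : ‖g0 x‖ ≤ M
    · rw [hg1, indicator_of_mem (show x ∈ {x | ‖g0 x‖ ≤ M} from h)]
      exact h
    · rw [hg1, indicator_of_notMem (show x ∉ {x | ‖g0 x‖ ≤ M} from h)]
      simpa using hM0
  refine ⟨Function.extend Subtype.val g1 0, M, ?_, ?_, ?_⟩
  · exact (MeasurableEmbedding.subtype_coe isClosed_sphere.measurableSet).measurable_extend
      hg1m measurable_zero
  · intro x
    by_cases h : ∃ y : sphere (0 : E n) 1, (y : E n) = x
    · obtain ⟨y, rfl⟩ := h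
      rw [Subtype.val_injective.extend_apply]
      exact hg1b y
    · rw [Function.extend_apply' _ _ _ h]
      simpa using hM0
  · filter_upwards [hgg, hM] with x hx hMx
    rw [Subtype.val_injective.extend_apply, hg1,
      indicator_of_mem (show x ∈ {x | ‖g0 x‖ ≤ M} from by
        change ‖g0 x‖ ≤ M
        rw [← hx]; exact hMx), hx]

/-- **Stein's restriction conjecture in `ℝ^3` for bounded densities with more than `1/5` of a
derivative in longitude and arbitrary in latitude.** -/
theorem result (s : ℝ) (hs : 1 / 5 < s) (K : ℝ)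
    (g : sphere (0 : EuclideanSpace ℝ (Fin 3)) 1 → ℂ)
    (hg : MemLp g ∞ (volume : Measure (EuclideanSpace ℝ (Fin 3))).toSphere)
    (hreg : ∀ h : ℝ, 0 < h → h ≤ 1 → ∀ a b : ℝ, -1 ≤ a → a < b → b ≤ 1 →
      ∫ x in {x : sphere (0 : EuclideanSpace ℝ (Fin 3)) 1 | a < x.1 2 ∧ x.1 2 ≤ b},
        ‖g (rotate (-h) x) - g x‖ ^ 2 ∂((volume : Measure (EuclideanSpace ℝ (Fin 3))).toSphere) ≤
        K * h ^ (2 * s) * (b - a))
    (p : ℝ) (hp : 3 < p) :
    MemLp (fun ξ : EuclideanSpace ℝ (Fin 3) => ∫ x : sphere (0 : EuclideanSpace ℝ (Fin 3)) 1,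
        Complex.exp (-(2 * Real.pi * ⟪(x : EuclideanSpace ℝ (Fin 3)), ξ⟫ : ℝ) * I) * g x
        ∂((volume : Measure (EuclideanSpace ℝ (Fin 3))).toSphere))
      (ENNReal.ofReal p) (volume : Measure (EuclideanSpace ℝ (Fin 3))) := by
  have hp0 : 0 < p := by linarith
  obtain ⟨G, M, hGm, hGb, hGg⟩ := exists_ext g hg
  have := sg_finite 3
  have hK0 : 0 ≤ K := by
    have h1 := hreg 1 one_pos le_rfl (-1) 1 le_rfl (by norm_num) le_rfl
    have h2 : 0 ≤ ∫ x in {x : sphere (0 : EuclideanSpace ℝ (Fin 3)) 1 | -1 < x.1 2 ∧ x.1 2 ≤ 1},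
        ‖g (rotate (-1) x) - g x‖ ^ 2
          ∂((volume : Measure (EuclideanSpace ℝ (Fin 3))).toSphere) :=
      integral_nonneg fun x => by positivity
    rw [Real.one_rpow] at h1
    linarith
  have hcore := core5 s hs K hK0 G hGm M hGb (by
    intro h h0 h1 a b ha hab hb
    refine le_trans (le_of_eq ?_) (hreg h h0 h1 a b ha hab hb)
    have hSm : MeasurableSet {x : E 3 | a < x 2 ∧ x 2 ≤ b} := by
      have hc : Measurable (fun x : E 3 => x 2) := by fun_prop
      exact (measurableSet_lt measurable_const hc).inter (measurableSet_le hc measurable_const)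
    have hFm : Measurable (fun x : E 3 => ‖G (rot (-h) x) - G x‖ ^ 2) :=
      ((hGm.comp (rotL (-h)).continuous.measurable).sub hGm).norm.pow_const 2
    rw [sg, setIntegral_map hSm hFm.aestronglyMeasurable measurable_subtype_coe.aemeasurable]
    have hset : (Subtype.val ⁻¹' {x : E 3 | a < x 2 ∧ x 2 ≤ b} : Set (sphere (0 : E 3) 1)) =
      {x : sphere (0 : E 3) 1 | a < x.1 2 ∧ x.1 2 ≤ b} := rfl
    rw [hset]
    apply integral_congr_ae
    have h3 : ∀ᵐ x : sphere (0 : E 3) 1 ∂((volume : Measure (E 3)).toSphere),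
        G ((rotate (-h) x : sphere (0 : E 3) 1) : E 3) = g (rotate (-h) x) :=
      (rotate_mp (-h)).quasiMeasurePreserving.ae hGg
    filter_upwards [ae_restrict_of_ae hGg, ae_restrict_of_ae h3] with x hx1 hx2
    rw [← rotate_coe, hx1, hx2]) p hp
  -- the Fourier transform in terms of T
  have hTG : ∀ ξ : E 3, ∫ x : sphere (0 : E 3) 1,
      Complex.exp (-(2 * Real.pi * ⟪(x : E 3), ξ⟫ : ℝ) * I) * g x
        ∂((volume : Measure (E 3)).toSphere) = T G ((2 * Real.pi) • ξ) := by
    intro ξ
    rw [T, integral_sg _ (T_integrable hGm hGb _).aestronglyMeasurable]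
    apply integral_congr_ae
    filter_upwards [hGg] with x hx
    rw [hx, inner_smul_left, real_inner_comm]
    simp
  have hfun : (fun ξ : E 3 => ∫ x : sphere (0 : E 3) 1,
      Complex.exp (-(2 * Real.pi * ⟪(x : E 3), ξ⟫ : ℝ) * I) * g x
        ∂((volume : Measure (E 3)).toSphere)) = fun ξ => T G ((2 * Real.pi) • ξ) :=
    funext hTG
  change MemLp (fun ξ : E 3 => ∫ x : sphere (0 : E 3) 1,
      Complex.exp (-(2 * Real.pi * ⟪(x : E 3), ξ⟫ : ℝ) * I) * g x
        ∂((volume : Measure (E 3)).toSphere)) (ENNReal.ofReal p) volume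
  rw [hfun]
  have hTm := T_meas hGm
  have h2pi : (2 * Real.pi) ≠ 0 := by positivity
  have hme : Measurable (fun ξ : E 3 => T G ((2 * Real.pi) • ξ)) :=
    hTm.comp (measurable_const_smul _)
  refine ⟨hme.aestronglyMeasurable, ?_⟩
  rw [eLpNorm_lt_top_iff_lintegral_rpow_enorm_lt_top (by simpa using hp0) ENNReal.ofReal_ne_top,
    ENNReal.toReal_ofReal hp0.le]
  have h1 : ∀ x : E 3, ‖T G x‖ₑ ^ p = ENNReal.ofReal (‖T G x‖ ^ p) := by
    intro x
    rw [← ofReal_norm, ENNReal.ofReal_rpow_of_nonneg (norm_nonneg _) hp0.le]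
  have h2 : ∫⁻ ξ : E 3, ‖T G ((2 * Real.pi) • ξ)‖ₑ ^ p =
      ENNReal.ofReal |((2 * Real.pi) ^ Module.finrank ℝ (E 3))⁻¹| *
        ∫⁻ x : E 3, ENNReal.ofReal (‖T G x‖ ^ p) := by
    have h3 := Measure.map_addHaar_smul (volume : Measure (E 3)) h2pi
    have h4 : ∫⁻ x : E 3, ENNReal.ofReal (‖T G x‖ ^ p)
        ∂(Measure.map ((2 * Real.pi) • · : E 3 → E 3) volume) =
        ∫⁻ ξ : E 3, ENNReal.ofReal (‖T G ((2 * Real.pi) • ξ)‖ ^ p) :=
      lintegral_map (hTm.norm.pow_const p).ennreal_ofReal (measurable_const_smul _)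
    rw [h3, lintegral_smul_measure] at h4
    simp_rw [h1]
    rw [← h4, smul_eq_mul]
  rw [h2]
  exact ENNReal.mul_lt_top ENNReal.ofReal_lt_top hcore

end Pool.Agent.Results.MP_6cbfb8_an.LongitudeRegularity
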