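import Mathlib
import Pool.Agent.H438R2.ZD.All
set_option autoImplicit false

/-!
# Stein's restriction conjecture for densities rough in one variable

Let `n ≥ 3` and let `τ` be a linear coordinate of `ℝ^n` or the length of the orthogonal projection
to a proper nonzero subspace. Let `Φ(s, x)` be measurable, of class `C^(n+1)` in `x` with
derivatives up to order `n + 1` bounded by `M` on the ball of radius 2, uniformly in `s`. Then the
Fourier transform of the measure with density `g(x) = Φ(τ(x), x)` on the unit sphere is in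
`L^p(ℝ^n)` for every `p > 2n/(n-1)`, with norm at most `C M`, `C` depending only on `n` and `p`.

The case `Φ(s, x) = γ(s)` is the case of all bounded zonal densities and of all bounded densities
invariant under `O(V) × O(V^⊥)`.
-/

namespace Pool.Agent.Results.MP_6cbfb8_an.RoughVariable

open MeasureTheory Set Metric Complex
open Pool.Agent.H438R2.BR Pool.Agent.H438R2.ZD
open Pool.Agent.H789R2.FR (E sg)
open scoped ENNReal RealInnerProductSpace

/-- surface measure on the unit sphere -/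
noncomputable def sigma (n : ℕ) : Measure (sphere (0 : E n) 1) := (volume : Measure (E n)).toSphere

/-- the Fourier transform of the measure `g dσ` -/
noncomputable def ft {n : ℕ} (g : sphere (0 : E n) 1 → ℂ) (ξ : E n) : ℂ :=
  ∫ x, Complex.exp (-(2 * Real.pi * ⟪(x : E n), ξ⟫ : ℝ) * I) * g x ∂(sigma n)

/-- the rough variable: a linear coordinate, or the length of the orthogonal projection to a
proper nonzero subspace -/
inductive IsRoughVariable (n : ℕ) : (E n → ℝ) → Prop
  | coordinate (e : E n) (he : ‖e‖ = 1) : IsRoughVariable n (fun x => ⟪e, x⟫)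
  | length (V : Submodule ℝ (E n)) (h0 : V ≠ ⊥) (h1 : V ≠ ⊤) :
      IsRoughVariable n (fun x => ‖V.starProjection x‖)

/-- `Φ(s, x)` is measurable, of class `C^(n+1)` in `x`, with derivatives in `x` of order
`0, ..., n+1` bounded by `M` on the ball `|x| ≤ 2`, uniformly in `s` -/
structure SmoothFamily {n : ℕ} (Φ : ℝ → E n → ℂ) (M : ℝ) : Prop where
  meas : Measurable (fun q : ℝ × E n => Φ q.1 q.2)
  smooth : ∀ s, ContDiff ℝ (n + 1 : ℕ) (Φ s)
  bound : ∀ s, ∀ j ≤ n + 1, ∀ x, ‖x‖ ≤ 2 → ‖iteratedFDeriv ℝ j (Φ s) x‖ ≤ M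

theorem meas_of {n : ℕ} (τ : E n → ℝ) (h : IsRoughVariable n τ) : Measurable τ := by
  cases h with
  | coordinate e he => exact (by fun_prop : Continuous _).measurable
  | length V h0 h1 => fun_prop

theorem good_of (n : ℕ) (hn : 3 ≤ n) (p : ℝ) (hp : 2 * (n : ℝ) / (n - 1) < p) :
    ∃ C : ℝ, 0 < C ∧ ∀ τ : E n → ℝ, IsRoughVariable n τ → Fam.Good τ p C := by
  obtain ⟨C1, hC1, h1⟩ := good_coord n hn p hp
  obtain ⟨C2, hC2, h2⟩ := good_len n hn p hp
  refine ⟨C1 + C2, by positivity, ?_⟩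
  intro τ hτ
  cases hτ with
  | coordinate e he => exact Good_mono _ p C1 _ (by linarith) (h1 e he)
  | length V h0 h1 => exact Good_mono _ p C2 _ (by linarith) (h2 V h0 h1)

theorem aux (n : ℕ) (hn : 3 ≤ n) (p : ℝ) (hp : 2 * (n : ℝ) / (n - 1) < p) : ∃ C : ℝ, 0 < C ∧
    ∀ τ : E n → ℝ, IsRoughVariable n τ →
      ∀ (Φ : ℝ → E n → ℂ) (M : ℝ), Fam.Nice Φ M →
      ∫⁻ ξ, ENNReal.ofReal (‖∫ w, Complex.exp (-((2 * Real.pi * ⟪w, ξ⟫ : ℝ) : ℂ) * I) *
        Φ (τ w) w ∂(sg n)‖ ^ p) ≤ ENNReal.ofReal (C * M ^ p) := by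
  have hnr : (3 : ℝ) ≤ n := by exact_mod_cast hn
  have hp1 : 1 < p := by
    rw [div_lt_iff₀ (by linarith)] at hp
    nlinarith
  obtain ⟨C, hC, hgood⟩ := good_of n hn p hp
  obtain ⟨C', hC', h⟩ := Fam.fam_unif (n := n) p hp1 C hC
  refine ⟨C', hC', ?_⟩
  intro τ hτ Φ M hΦ
  exact h τ (meas_of τ hτ) (hgood τ hτ) Φ M hΦ

/-- **Theorem.** Densities smooth in `x` and rough in one variable. -/
theorem result (n : ℕ) (hn : 3 ≤ n) (p : ℝ) (hp : 2 * (n : ℝ) / (n - 1) < p) :
    ∃ C : ℝ, 0 < C ∧ ∀ τ : E n → ℝ, IsRoughVariable n τ →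
      ∀ (Φ : ℝ → E n → ℂ) (M : ℝ), SmoothFamily Φ M →
        ∀ g : sphere (0 : E n) 1 → ℂ, (∀ᵐ x ∂(sigma n), g x = Φ (τ x) x) →
        MemLp (ft g) (ENNReal.ofReal p) ∧
        eLpNorm (ft g) (ENNReal.ofReal p) ≤ ENNReal.ofReal (C * M) := by
  obtain ⟨C, hC, h⟩ := aux n hn p hp
  refine ⟨C ^ (1 / p), by positivity, ?_⟩
  intro τ hτ Φ M hΦ g hg
  obtain ⟨hΦm, hΦs, hΦb⟩ := hΦ
  have hnr : (3 : ℝ) ≤ n := by exact_mod_cast hn
  have hp0 : 0 < p := by
    rw [div_lt_iff₀ (by linarith)] at hp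
    nlinarith
  have hM0 : 0 ≤ M := (norm_nonneg _).trans (hΦb 0 0 (Nat.zero_le _) 0 (by simp))
  have hfin : IsFiniteMeasure (sg n) := Pool.Agent.H789R2.FR.sg_finite _
  have hτm : Measurable τ := meas_of τ hτ
  set H : E n → ℂ := fun ξ => ∫ w, Complex.exp (-((2 * Real.pi * ⟪w, ξ⟫ : ℝ) : ℂ) * I) *
        Φ (τ w) w ∂(sg n) with hH
  have hm3 : Measurable fun p : E n × E n =>
      Complex.exp (-((2 * Real.pi * ⟪p.2, p.1⟫ : ℝ) : ℂ) * I) * Φ (τ p.2) p.2 := by
    have m0 : Measurable fun q : E n × E n => (τ q.2, q.2) :=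
      (hτm.comp measurable_snd).prodMk measurable_snd
    have m1' := Measurable.comp hΦm m0
    have m1 : Measurable fun q : E n × E n => Φ (τ q.2) q.2 := m1'
    have m2 : Measurable fun q : E n × E n => (⟪q.2, q.1⟫ : ℝ) :=
      (continuous_snd.inner continuous_fst).measurable
    have m3 : Measurable fun q : E n × E n =>
        Complex.exp (-((2 * Real.pi * ⟪q.2, q.1⟫ : ℝ) : ℂ) * I) :=
      Complex.measurable_exp.comp
        ((Complex.measurable_ofReal.comp (m2.const_mul _)).neg.mul_const I)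
    exact m3.mul m1
  have hHm : Measurable H := by
    apply StronglyMeasurable.measurable
    apply StronglyMeasurable.integral_prod_right (f := fun (ξ w : E n) =>
      Complex.exp (-((2 * Real.pi * ⟪w, ξ⟫ : ℝ) : ℂ) * I) * Φ (τ w) w)
    exact hm3.stronglyMeasurable
  have hfun : ft g = H := by
    funext ξ
    have m1 : Measurable fun w : E n =>
        Complex.exp (-((2 * Real.pi * ⟪w, ξ⟫ : ℝ) : ℂ) * I) * Φ (τ w) w := by
      have h1 : Measurable fun w : E n => (ξ, w) := measurable_prodMk_left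
      have h2 := Measurable.comp hm3 h1
      exact h2
    rw [hH]
    simp only [sg, ft, sigma]
    rw [integral_map measurable_subtype_coe.aemeasurable m1.aestronglyMeasurable]
    apply integral_congr_ae
    filter_upwards [hg] with x hx
    rw [hx]
  rw [hfun]
  have hnice : Fam.Nice Φ M := ⟨hΦm, hΦs, hΦb⟩
  have hb := h τ hτ Φ M hnice
  have hp1 : ENNReal.ofReal p ≠ 0 := by simpa using hp0
  have e1 : eLpNorm H (ENNReal.ofReal p) volume ≤ ENNReal.ofReal (C ^ (1 / p) * M) := by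
    rw [eLpNorm_eq_lintegral_rpow_enorm_toReal hp1 ENNReal.ofReal_ne_top,
      ENNReal.toReal_ofReal hp0.le]
    have h3 : ∀ x : E n, ‖H x‖ₑ ^ p = ENNReal.ofReal (‖H x‖ ^ p) := by
      intro x
      rw [← ofReal_norm, ENNReal.ofReal_rpow_of_nonneg (norm_nonneg _) hp0.le]
    simp_rw [h3]
    calc _ ≤ (ENNReal.ofReal (C * M ^ p)) ^ (1 / p) := by
          gcongr
      _ = _ := by
          rw [ENNReal.ofReal_rpow_of_nonneg (by positivity) (by positivity),
            Real.mul_rpow hC.le (by positivity), ← Real.rpow_mul hM0, mul_one_div_cancel hp0.ne',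
            Real.rpow_one]
  exact ⟨⟨hHm.aestronglyMeasurable, e1.trans_lt ENNReal.ofReal_lt_top⟩, e1⟩

end Pool.Agent.Results.MP_6cbfb8_an.RoughVariable
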