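import Mathlib
import Pool.Agent.H438R2.PD.Fin
set_option autoImplicit false

/-!
# Stein's restriction conjecture: densities with separated variables

Let `3 ≤ m < n`, `p > 2m/(m-1)`. In any orthonormal basis `e` of `ℝ^n`, let the density `g` on the
unit sphere be the product of `m` arbitrary bounded measurable functions of one coordinate each
and of an arbitrary bounded measurable function `b` of the other `n - m` coordinates. Then the
Fourier transform of `g dσ` is in `L^p(ℝ^n)`, with norm at most `C M^m K`, where `M` bounds the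
functions of one coordinate and `K` bounds `b`.

For `m = n - 1` the density is an arbitrary product `a_1(x_1) ⋯ a_n(x_n)`, and the range is
`p > 2(n-1)/(n-2) = 2 + 2/(n-2)` (Stein's conjecture: `p > 2 + 2/(n-1)`; Stein-Tomas:
`p ≥ 2 + 4/(n-1)`).
-/

namespace Pool.Agent.Results.MP_6cbfb8_an.SeparatedDensities

open MeasureTheory Set Metric Complex
open Pool.Agent.H438R2.PD
open Pool.Agent.H789R2.FR (E sg T sg_finite)
open Pool.Agent.H438R2.BR (J J_mp)
open scoped ENNReal RealInnerProductSpace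

/-- surface measure on the unit sphere -/
noncomputable def sigma (n : ℕ) : Measure (sphere (0 : E n) 1) := (volume : Measure (E n)).toSphere

/-- the Fourier transform of the measure `g dσ` -/
noncomputable def ft {n : ℕ} (g : sphere (0 : E n) 1 → ℂ) (ξ : E n) : ℂ :=
  ∫ x, Complex.exp (-(2 * Real.pi * ⟪(x : E n), ξ⟫ : ℝ) * I) * g x ∂(sigma n)

/-- In the orthonormal basis `e` of `ℝ^n`, the density `g` on the unit sphere is the product of
functions `a_1, ..., a_m` of one coordinate each (the first `m` coordinates) and a function `b` of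
the other coordinates; the `a_j` are measurable and bounded by `M`, `b` is measurable and bounded
by `K`. -/
structure Separated {n : ℕ} (e : OrthonormalBasis (Fin n) ℝ (E n)) (m : ℕ) (a : Fin n → ℝ → ℂ)
    (b : E n → ℂ) (M K : ℝ) (g : sphere (0 : E n) 1 → ℂ) : Prop where
  meas_a : ∀ j, Measurable (a j)
  meas_b : Measurable b
  bound_a : ∀ j u, ‖a j u‖ ≤ M
  bound_b : ∀ x, ‖b x‖ ≤ K
  rest : ∀ x y, (∀ j : Fin n, m ≤ (j : ℕ) → ⟪e j, x⟫ = ⟪e j, y⟫) → b x = b y
  eq : ∀ᵐ x ∂(sigma n), g x = (∏ j : Fin n, if (j : ℕ) < m then a j ⟪e j, (x : E n)⟫ else 1) * b x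

theorem ft_eq {n : ℕ} (g : sphere (0 : E n) 1 → ℂ) (G : E n → ℂ) (hG : Measurable G)
    (Λ : E n ≃ₗᵢ[ℝ] E n) (hg : ∀ᵐ x ∂(sigma n), g x = G (Λ x)) (ξ : E n) :
    ft g ξ = T G ((2 * Real.pi) • Λ ξ) := by
  rw [← map_smul, ← T_comp]
  unfold T ft
  have m1 : Measurable fun w : E n =>
      Complex.exp (-((⟪(2 * Real.pi) • ξ, w⟫ : ℝ) : ℂ) * I) * G (Λ w) := by
    have h2 : Measurable fun z : E n => (⟪(2 * Real.pi) • ξ, z⟫ : ℝ) :=
      (by fun_prop : Continuous _).measurable
    exact (Complex.measurable_exp.comp ((Complex.measurable_ofReal.comp h2).neg.mul_const I)).mul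
      (hG.comp Λ.continuous.measurable)
  simp only [sg]
  rw [integral_map measurable_subtype_coe.aemeasurable m1.aestronglyMeasurable]
  apply integral_congr_ae
  filter_upwards [hg] with x hx
  rw [hx, real_inner_smul_left, real_inner_comm]

theorem ft_bound {n : ℕ} (p : ℝ) (hp0 : 0 < p) (g : sphere (0 : E n) 1 → ℂ) (G : E n → ℂ)
    (hG : Measurable G) (Λ : E n ≃ₗᵢ[ℝ] E n) (hg : ∀ᵐ x ∂(sigma n), g x = G (Λ x)) (B : ℝ)
    (hB : 0 ≤ B) (h : ∫⁻ z, ENNReal.ofReal (‖T G z‖ ^ p) ≤ ENNReal.ofReal (B ^ p)) :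
    MemLp (ft g) (ENNReal.ofReal p) ∧
      eLpNorm (ft g) (ENNReal.ofReal p) ≤ ENNReal.ofReal B := by
  have hfun : ft g = fun ξ => T G ((2 * Real.pi) • Λ ξ) := funext fun ξ => ft_eq g G hG Λ hg ξ
  have hTm : Measurable (T G) := T_meas' G hG
  have hm1 : Measurable fun ξ : E n => T G ((2 * Real.pi) • ξ) := by
    have h1 : Measurable fun x : E n => (2 * Real.pi) • x := measurable_const_smul _
    have h2 := Measurable.comp hTm h1
    exact h2
  have hm2 : Measurable fun ξ : E n => T G ((2 * Real.pi) • Λ ξ) := by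
    have h2 := Measurable.comp hm1 Λ.continuous.measurable
    exact h2
  rw [hfun]
  have hp1 : ENNReal.ofReal p ≠ 0 := by simpa using hp0
  have hmeas : Measurable fun x : E n => ENNReal.ofReal (‖T G x‖ ^ p) :=
    (hTm.norm.pow_const p).ennreal_ofReal
  have hint : ∫⁻ ξ, ENNReal.ofReal (‖T G ((2 * Real.pi) • Λ ξ)‖ ^ p) ≤
      ENNReal.ofReal (B ^ p) := by
    have hmeas2 : Measurable fun x : E n =>
        ENNReal.ofReal (‖T G ((2 * Real.pi) • x)‖ ^ p) := (hm1.norm.pow_const p).ennreal_ofReal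
    have h1 : ∫⁻ ξ, ENNReal.ofReal (‖T G ((2 * Real.pi) • Λ ξ)‖ ^ p) =
        ∫⁻ ξ, ENNReal.ofReal (‖T G ((2 * Real.pi) • ξ)‖ ^ p) :=
      Λ.measurePreserving.lintegral_comp hmeas2
    rw [h1]
    have h2pi : (2 * Real.pi) ≠ 0 := by positivity
    have h3 := Measure.map_addHaar_smul (volume : Measure (E n)) h2pi
    have h4 : ∫⁻ x : E n, ENNReal.ofReal (‖T G x‖ ^ p)
        ∂(Measure.map ((2 * Real.pi) • · : E n → E n) volume) =
        ∫⁻ ξ : E n, ENNReal.ofReal (‖T G ((2 * Real.pi) • ξ)‖ ^ p) :=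
      lintegral_map hmeas (measurable_const_smul _)
    rw [← h4, h3, lintegral_smul_measure, smul_eq_mul]
    have h5 : ENNReal.ofReal |((2 * Real.pi) ^ Module.finrank ℝ (E n))⁻¹| ≤ 1 := by
      rw [ENNReal.ofReal_le_one, abs_of_nonneg (by positivity)]
      apply inv_le_one_of_one_le₀
      apply one_le_pow₀
      linarith [Real.pi_gt_three]
    calc _ ≤ 1 * ∫⁻ x : E n, ENNReal.ofReal (‖T G x‖ ^ p) := by gcongr
      _ ≤ _ := by
          rw [one_mul]
          exact h
  have e1 : eLpNorm (fun ξ => T G ((2 * Real.pi) • Λ ξ)) (ENNReal.ofReal p) volume ≤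
      ENNReal.ofReal B := by
    rw [eLpNorm_eq_lintegral_rpow_enorm_toReal hp1 ENNReal.ofReal_ne_top,
      ENNReal.toReal_ofReal hp0.le]
    have h3 : ∀ x : E n, ‖T G ((2 * Real.pi) • Λ x)‖ₑ ^ p =
        ENNReal.ofReal (‖T G ((2 * Real.pi) • Λ x)‖ ^ p) := by
      intro x
      rw [← ofReal_norm, ENNReal.ofReal_rpow_of_nonneg (norm_nonneg _) hp0.le]
    simp_rw [h3]
    calc _ ≤ (ENNReal.ofReal (B ^ p)) ^ (1 / p) := by
          gcongr
      _ = _ := by
          rw [ENNReal.ofReal_rpow_of_nonneg (by positivity) (by positivity),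
            ← Real.rpow_mul hB, mul_one_div_cancel hp0.ne', Real.rpow_one]
  exact ⟨⟨hm2.aestronglyMeasurable, e1.trans_lt ENNReal.ofReal_lt_top⟩, e1⟩

/-- **Theorem.** Products of rough functions of one variable. -/
theorem result (n m : ℕ) (hm : 3 ≤ m) (hmn : m < n) (p : ℝ) (hp : 2 * (m : ℝ) / (m - 1) < p) :
    ∃ C : ℝ, 0 < C ∧ ∀ (e : OrthonormalBasis (Fin n) ℝ (E n)) (a : Fin n → ℝ → ℂ) (b : E n → ℂ)
      (M K : ℝ) (g : sphere (0 : E n) 1 → ℂ), Separated e m a b M K g →
        MemLp (ft g) (ENNReal.ofReal p) ∧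
        eLpNorm (ft g) (ENNReal.ofReal p) ≤ ENNReal.ofReal (C * M ^ m * K) := by
  obtain ⟨d, rfl⟩ : ∃ d, n = m + d := ⟨n - m, by omega⟩
  have hmr : (3 : ℝ) ≤ m := by exact_mod_cast hm
  have hp22 : 2 ≤ p := by
    rw [div_lt_iff₀ (by linarith)] at hp
    nlinarith
  have hp0 : 0 < p := by linarith
  obtain ⟨C, hC, h⟩ := all_case m d hm (by omega) p hp
  refine ⟨C ^ (1 / p), by positivity, ?_⟩
  intro e a b M K g hg
  obtain ⟨ha, hb, hM, hK, hrest, heq⟩ := hg
  have hM0 : 0 ≤ M := (norm_nonneg _).trans (hM ⟨0, by omega⟩ 0)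
  have hK0 : 0 ≤ K := (norm_nonneg _).trans (hK 0)
  set Λ : E (m + d) ≃ₗᵢ[ℝ] E (m + d) := e.repr with hΛ
  set a' : Fin m → ℝ → ℂ := fun i => a (Fin.castAdd d i) with ha'
  set b' : E d → ℂ := fun y => b (Λ.symm (J (0 : E m) y)) with hb'
  have hJm : Measurable fun y : E d => J (0 : E m) y :=
    (J_mp m d).measurable.comp measurable_prodMk_left
  have hb'm : Measurable b' := hb.comp (Λ.symm.continuous.measurable.comp hJm)
  have hGm : Measurable (gp a' b') := gp_meas a' b' (fun j => ha _) hb'm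
  have hcoord : ∀ (x : E (m + d)) (j : Fin (m + d)), ⟪e j, x⟫ = (Λ x) j := fun x j => by
    rw [hΛ, e.repr_apply_apply]
  have hgG : ∀ᵐ x ∂(sigma (m + d)), g x = gp a' b' (Λ x) := by
    filter_upwards [heq] with x hx
    rw [hx]
    unfold gp ten
    congr 1
    · rw [Fin.prod_univ_add]
      have h1 : ∀ i : Fin d, ¬ ((Fin.natAdd m i : Fin (m + d)) : ℕ) < m := by
        intro i
        simp
      have h2 : ∀ i : Fin m, ((Fin.castAdd d i : Fin (m + d)) : ℕ) < m := by
        intro i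
        simp
      simp only [h1, h2, if_true, if_false, Finset.prod_const_one, mul_one]
      apply Finset.prod_congr rfl
      intro i _
      rw [hcoord]
      rfl
    · rw [hb']
      apply hrest
      intro j hj
      rw [hcoord, hcoord, Λ.apply_symm_apply]
      obtain ⟨i, rfl⟩ : ∃ i : Fin d, j = Fin.natAdd m i :=
        ⟨⟨(j : ℕ) - m, by omega⟩, by ext; simp; omega⟩
      have h3 := congrArg (fun y : E d => y i) (P2_J (0 : E m) (P2 m d (Λ x)))
      exact h3.symm
  have h1 := h a' b' M K (fun j => ha _) hb'm (fun j u => hM _ u) (fun y => hK _)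
  have h2 : C * (M ^ m * K) ^ p = (C ^ (1 / p) * M ^ m * K) ^ p := by
    rw [mul_assoc (C ^ (1 / p)), Real.mul_rpow (x := C ^ (1 / p)) (by positivity) (by positivity),
      ← Real.rpow_mul hC.le, one_div_mul_cancel hp0.ne', Real.rpow_one]
  rw [h2] at h1
  exact ft_bound p hp0 g (gp a' b') hGm Λ hgG _ (by positivity) h1

end Pool.Agent.Results.MP_6cbfb8_an.SeparatedDensities
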